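import Pool.Agent.Q248.KN.Basic

/-!
# Noisy `(k,l)`-sum-free sets in cyclic groups: basic lemmas
-/

set_option linter.unusedSectionVars false

namespace Pool.Agent.Q248.NSF

open Finset Pool.Agent.Helper591.Kneser Pool.Agent.Q248.KN
open scoped Pointwise

section general

variable {G : Type*} [AddCommGroup G] [Fintype G] [DecidableEq G]

theorem sm_add_set (j : ℕ) (A B : Finset G) : sm j (A + B) = sm j A + sm j B := by
  induction j with
  | zero => rw [sm_zero, sm_zero, sm_zero, singleton_add_singleton, add_zero]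
  | succ j ih => rw [sm_succ, sm_succ, sm_succ, ih, add_add_add_comm]

theorem sm_mono {A B : Finset G} (h : A ⊆ B) (j : ℕ) : sm j A ⊆ sm j B := by
  induction j with
  | zero => rw [sm_zero, sm_zero]
  | succ j ih => rw [sm_succ, sm_succ]; exact add_subset_add ih h

/-- `k A + (k-1) C = A + (k-1)(A + C)` -/
theorem star_eq {k : ℕ} (hk : 1 ≤ k) (A C : Finset G) :
    sm k A + sm (k - 1) C = A + sm (k - 1) (A + C) := by
  obtain ⟨j, rfl⟩ := Nat.exists_eq_add_of_le hk
  rw [show 1 + j - 1 = j by omega, sm_add_set, sm_add, sm_one, add_assoc]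

/-- iterated Kneser inequality for `A + j T`, `j ≤ K`, relative to a subgroup that contains the
stabilizer of `A + K T` -/
theorem kn_iter {A T : Finset G} (hA : A.Nonempty) (hT : T.Nonempty) (H : AddSubgroup G) (K : ℕ)
    (hH : stab (A + sm K T) ≤ H) : ∀ j, j ≤ K →
      A.card + j * T.card ≤ (A + sm j T).card + j * (els H).card := by
  intro j
  induction j with
  | zero =>
    intro _
    rw [sm_zero]
    simp
  | succ j ih =>
    intro hj
    have h1 := ih (by omega)
    have h2 := kneser (A := A + sm j T) (B := T) (hA.add (sm_nonempty hT j)) hT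
    have h3 : A + sm j T + T = A + sm (j + 1) T := by rw [sm_succ, add_assoc]
    rw [h3] at h2
    have h4 : stab (A + sm (j + 1) T) ≤ H := by
      refine le_trans ?_ hH
      obtain ⟨i, hi⟩ := Nat.exists_eq_add_of_le hj
      have e : A + sm K T = (A + sm (j + 1) T) + sm i T := by
        rw [hi, sm_add (j + 1) i T, add_assoc]
      rw [e]
      exact stab_le_stab_add (A + sm (j + 1) T) (sm i T)
    have h5 := card_els_le_of_le h4
    rw [Nat.succ_mul, Nat.succ_mul]
    omega

theorem els_add_els (H : AddSubgroup G) : els H + els H = els H := by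
  ext x
  rw [Finset.mem_add, mem_els]
  constructor
  · rintro ⟨a, ha, b, hb, rfl⟩
    exact H.add_mem (mem_els.1 ha) (mem_els.1 hb)
  · intro hx
    exact ⟨x, mem_els.2 hx, 0, mem_els.2 H.zero_mem, add_zero x⟩

theorem sm_add_els (H : AddSubgroup G) (A : Finset G) {j : ℕ} (hj : 1 ≤ j) :
    sm j (A + els H) = sm j A + els H := by
  induction j, hj using Nat.le_induction with
  | base => rw [sm_one, sm_one]
  | succ j hj ih =>
    rw [sm_succ, sm_succ, ih, add_add_add_comm, els_add_els]

theorem add_els_of_le_stab {H : AddSubgroup G} {X : Finset G} (h : H ≤ stab X) :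
    X + els H = X := by
  apply Finset.Subset.antisymm
  · intro x hx
    rw [Finset.mem_add] at hx
    obtain ⟨a, ha, g, hg, rfl⟩ := hx
    rw [mem_els] at hg
    rw [add_comm]
    exact (h hg a).2 ha
  · exact subset_add_els H _

end general

section cyclic

variable {n : ℕ}

/-- the interval `{a, a+1, …, a+m-1}` of `ℤ/n` -/
def iv (n : ℕ) (a : ZMod n) (m : ℕ) : Finset (ZMod n) :=
  (range m).image (fun i : ℕ => a + (i : ZMod n))

theorem mem_iv {a z : ZMod n} {m : ℕ} : z ∈ iv n a m ↔ ∃ i : ℕ, i < m ∧ a + (i : ZMod n) = z := by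
  rw [iv, mem_image]
  constructor
  · rintro ⟨i, hi, h⟩
    exact ⟨i, mem_range.1 hi, h⟩
  · rintro ⟨i, hi, h⟩
    exact ⟨i, mem_range.2 hi, h⟩

theorem iv_add (a b : ZMod n) (p q : ℕ) :
    iv n a (p + 1) + iv n b (q + 1) = iv n (a + b) (p + q + 1) := by
  ext z
  rw [Finset.mem_add, mem_iv]
  constructor
  · rintro ⟨x, hx, y, hy, rfl⟩
    rw [mem_iv] at hx hy
    obtain ⟨i, hi, rfl⟩ := hx
    obtain ⟨j, hj, rfl⟩ := hy
    refine ⟨i + j, by omega, ?_⟩
    push_cast
    ring
  · rintro ⟨s, hs, rfl⟩
    refine ⟨a + ((min s p : ℕ) : ZMod n), mem_iv.2 ⟨min s p, by omega, rfl⟩,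
      b + ((s - min s p : ℕ) : ZMod n), mem_iv.2 ⟨s - min s p, by omega, rfl⟩, ?_⟩
    have h : s = min s p + (s - min s p) := by omega
    calc a + ((min s p : ℕ) : ZMod n) + (b + ((s - min s p : ℕ) : ZMod n))
        = a + b + ((min s p + (s - min s p) : ℕ) : ZMod n) := by push_cast; ring
      _ = _ := by rw [← h]

theorem sm_iv [NeZero n] (y : ZMod n) (t : ℕ) (j : ℕ) :
    sm j (iv n y (t + 1)) = iv n ((j : ZMod n) * y) (j * t + 1) := by
  induction j with
  | zero =>
    rw [sm_zero]
    ext z
    rw [mem_iv, mem_singleton]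
    constructor
    · rintro rfl
      exact ⟨0, by omega, by simp⟩
    · rintro ⟨i, hi, rfl⟩
      have : i = 0 := by omega
      subst this
      simp
  | succ j ih =>
    rw [sm_succ, ih, iv_add]
    congr 1
    · push_cast; ring
    · ring

/-- a nonempty set closed under `+1` is everything -/
theorem eq_univ_of_succ [NeZero n] {B : Finset (ZMod n)} (hB : B.Nonempty)
    (h : ∀ x ∈ B, x + 1 ∈ B) : B = univ := by
  obtain ⟨b, hb⟩ := hB
  have h1 : ∀ i : ℕ, b + (i : ZMod n) ∈ B := by
    intro i
    induction i with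
    | zero => simpa using hb
    | succ i ih =>
      have := h _ ih
      rw [add_assoc] at this
      push_cast
      exact this
  rw [eq_univ_iff_forall]
  intro z
  have h2 := h1 (z - b).val
  rw [ZMod.natCast_zmod_val] at h2
  rw [show b + (z - b) = z by abel] at h2
  exact h2

theorem subset_add_iv [NeZero n] (B : Finset (ZMod n)) (j : ℕ) : B ⊆ B + iv n 0 (j + 1) := by
  intro x hx
  rw [Finset.mem_add]
  exact ⟨x, hx, 0, mem_iv.2 ⟨0, by omega, by simp⟩, add_zero x⟩

/-- adding `{0,1}` to a periodic set that is not everything gains at least one coset -/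
theorem grow [NeZero n] {B : Finset (ZMod n)} {H : AddSubgroup (ZMod n)} (hH : H ≤ stab B)
    (hB : B.Nonempty) (hne : B ≠ univ) :
    B.card + (els H).card ≤ (B + iv n 0 2).card := by
  have h1 : B ⊆ B + iv n 0 2 := subset_add_iv B 1
  have h2 : B ≠ B + iv n 0 2 := by
    intro h
    apply hne
    apply eq_univ_of_succ hB
    intro x hx
    rw [h, Finset.mem_add]
    exact ⟨x, hx, 1, mem_iv.2 ⟨1, by omega, by simp⟩, rfl⟩
  have h3 : B.card < (B + iv n 0 2).card :=
    Finset.card_lt_card ((Finset.ssubset_iff_subset_ne).2 ⟨h1, h2⟩)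
  have h4 := card_dvd_of_le_stab hH
  have h5 := card_dvd_of_le_stab (hH.trans (stab_le_stab_add B (iv n 0 2)))
  have h6 : (els H).card ∣ (B + iv n 0 2).card - B.card := Nat.dvd_sub h5 h4
  have h7 := Nat.le_of_dvd (by omega) h6
  omega

theorem grow_iter [NeZero n] {B : Finset (ZMod n)} {H : AddSubgroup (ZMod n)} (hH : H ≤ stab B)
    (hB : B.Nonempty) : ∀ j : ℕ, B + iv n 0 (j + 2) ≠ univ →
    (B + iv n 0 2).card + j * (els H).card ≤ (B + iv n 0 (j + 2)).card := by
  intro j
  induction j with
  | zero => intro _; simp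
  | succ j ih =>
    intro hne
    have e1 : B + iv n 0 (j + 1 + 2) = (B + iv n 0 (j + 2)) + iv n 0 2 := by
      have h := iv_add (n := n) 0 0 (j + 1) 1
      have h' : iv n 0 (j + 2) + iv n 0 2 = iv n 0 (j + 1 + 2) := by
        rw [add_zero] at h
        exact h
      rw [← h']
      exact (add_assoc B (iv n 0 (j + 2)) (iv n 0 2)).symm
    have h1 : B + iv n 0 (j + 2) ≠ univ := by
      intro h
      apply hne
      rw [e1, h]
      have h2 := subset_add_iv (univ : Finset (ZMod n)) 1
      exact Finset.univ_subset_iff.1 h2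
    have h2 := ih h1
    have h3 := grow (hH.trans (stab_le_stab_add B (iv n 0 (j + 2))))
      (hB.mono (subset_add_iv B (j + 1))) h1
    rw [← e1] at h3
    rw [Nat.succ_mul]
    omega

end cyclic

end Pool.Agent.Q248.NSF
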