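import Pool.Agent.Q248.NSF.Basic

/-!
# Noisy `(k,l)`-sum-free sets in cyclic groups: the structural step
-/

set_option linter.unusedSectionVars false

namespace Pool.Agent.Q248.NSF

open Finset Pool.Agent.Helper591.Kneser Pool.Agent.Q248.KN
open scoped Pointwise

variable {n : ℕ}

/-- multiples of the index lie in the subgroup -/
theorem index_mul_mem [NeZero n] (H : AddSubgroup (ZMod n)) (q : ℕ) :
    ((H.index * q : ℕ) : ZMod n) ∈ H := by
  have h1 : H.index • (1 : ZMod n) ∈ H := AddSubgroup.nsmul_index_mem H 1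
  have h2 : ((H.index * q : ℕ) : ZMod n) = q • (H.index • (1 : ZMod n)) := by
    rw [nsmul_eq_mul, nsmul_eq_mul, mul_one]
    push_cast
    ring
  rw [h2]
  exact H.nsmul_mem h1 q

theorem card_els_mul_index [NeZero n] (H : AddSubgroup (ZMod n)) :
    (els H).card * H.index = n := by
  have h1 : (els H).card = Nat.card H := by
    classical
    rw [Nat.card_eq_fintype_card, Fintype.card_subtype]
    congr 1
  rw [h1, AddSubgroup.card_mul_index, Nat.card_zmod]

/-- the case of one run modulo `H`: the set is, modulo `H`, an interval -/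
theorem one_run [NeZero n] {A : Finset (ZMod n)} {H : AddSubgroup (ZMod n)} (hH : H ≤ stab A)
    (hA : A.Nonempty) (hne : A ≠ univ) (hc : (A + iv n 0 2).card = A.card + (els H).card) :
    ∃ (t : ℕ) (y : ZMod n), 1 ≤ t ∧ iv n y t ⊆ A ∧ A.card ≤ t * (els H).card := by
  set E := (A + iv n 0 2) \ A with hE
  have hEper : ∀ u ∈ E, ∀ g ∈ H, g + u ∈ E := by
    intro u hu g hg
    rw [hE, mem_sdiff] at hu ⊢
    refine ⟨((hH.trans (stab_le_stab_add A (iv n 0 2))) hg u).2 hu.1, ?_⟩
    intro h
    exact hu.2 ((hH hg u).1 h)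
  have hEcard : E.card = (els H).card := by
    rw [hE, card_sdiff_of_subset (subset_add_iv A 1), hc]
    omega
  have hEsub : ∀ u ∈ E, ∀ v ∈ E, v - u ∈ H := by
    intro u hu v hv
    have h1 : (els H).image (fun g => g + u) ⊆ E := by
      intro w hw
      rw [mem_image] at hw
      obtain ⟨g, hg, rfl⟩ := hw
      exact hEper u hu g (mem_els.1 hg)
    have h2 : (els H).image (fun g => g + u) = E := by
      apply Finset.eq_of_subset_of_card_le h1
      rw [hEcard, card_image_of_injective _ (add_left_injective u)]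
    rw [← h2, mem_image] at hv
    obtain ⟨g, hg, rfl⟩ := hv
    rw [add_sub_cancel_right]
    exact mem_els.1 hg
  have hEmem : ∀ x ∈ A, x + 1 ∉ A → x + 1 ∈ E := by
    intro x hx hx1
    rw [hE, mem_sdiff]
    refine ⟨?_, hx1⟩
    rw [Finset.mem_add]
    exact ⟨x, hx, 1, mem_iv.2 ⟨1, by omega, by simp⟩, rfl⟩
  -- a right end
  obtain ⟨x, hx, hx1⟩ : ∃ x ∈ A, x + 1 ∉ A := by
    by_contra hcon
    push Not at hcon
    exact hne (eq_univ_of_succ hA hcon)
  have hn : 0 < n := Nat.pos_of_ne_zero (NeZero.ne n)
  have hex : ∃ t : ℕ, x - (t : ZMod n) ∉ A := by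
    refine ⟨n - 1, ?_⟩
    have : x - ((n - 1 : ℕ) : ZMod n) = x + 1 := by
      rw [Nat.cast_sub hn, ZMod.natCast_self]
      push_cast
      ring
    rw [this]
    exact hx1
  classical
  set t := Nat.find hex with ht
  have ht1 : x - (t : ZMod n) ∉ A := Nat.find_spec hex
  have ht2 : ∀ j, j < t → x - (j : ZMod n) ∈ A := by
    intro j hj
    have := Nat.find_min hex hj
    push Not at this
    exact this
  have htpos : 1 ≤ t := by
    by_contra h
    have : t = 0 := by omega
    rw [this] at ht1
    simp at ht1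
    exact ht1 hx
  refine ⟨t, x - ((t - 1 : ℕ) : ZMod n), htpos, ?_, ?_⟩
  · intro z hz
    rw [mem_iv] at hz
    obtain ⟨i, hi, rfl⟩ := hz
    have h1 := ht2 (t - 1 - i) (by omega)
    have h2 : x - ((t - 1 : ℕ) : ZMod n) + (i : ZMod n) = x - ((t - 1 - i : ℕ) : ZMod n) := by
      have h3 : t - 1 = (t - 1 - i) + i := by omega
      calc x - ((t - 1 : ℕ) : ZMod n) + (i : ZMod n)
          = x - (((t - 1 - i) + i : ℕ) : ZMod n) + (i : ZMod n) := by rw [← h3]
        _ = _ := by push_cast; ring
    rw [h2]
    exact h1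
  · have hsub : A ⊆ (range t ×ˢ els H).image (fun q => x - ((q.1 : ℕ) : ZMod n) + q.2) := by
      intro z hz
      have hex2 : ∃ i : ℕ, z + (i : ZMod n) + 1 ∉ A := by
        refine ⟨(x - z).val, ?_⟩
        rw [ZMod.natCast_zmod_val, show z + (x - z) + 1 = x + 1 by abel]
        exact hx1
      set i := Nat.find hex2 with hi
      have hi1 : z + (i : ZMod n) + 1 ∉ A := Nat.find_spec hex2
      have hi2 : ∀ j, j ≤ i → z + (j : ZMod n) ∈ A := by
        intro j hj
        rcases Nat.eq_zero_or_pos j with rfl | hjp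
        · simpa using hz
        · have := Nat.find_min hex2 (show j - 1 < i by omega)
          push Not at this
          have e : z + ((j - 1 : ℕ) : ZMod n) + 1 = z + (j : ZMod n) := by
            rw [Nat.cast_sub hjp]
            push_cast
            ring
          rw [e] at this
          exact this
      have hiE := hEmem _ (hi2 i le_rfl) hi1
      have hxE := hEmem x hx hx1
      have hg : z + (i : ZMod n) - x ∈ H := by
        have := hEsub _ hxE _ hiE
        rwa [show z + (i : ZMod n) + 1 - (x + 1) = z + (i : ZMod n) - x by abel] at this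
      have hit : i < t := by
        by_contra hcon
        push Not at hcon
        have h1 := hi2 (i - t) (by omega)
        have h2 : z + ((i - t : ℕ) : ZMod n) =
            (z + (i : ZMod n) - x) + (x - (t : ZMod n)) := by
          rw [Nat.cast_sub hcon]
          ring
        rw [h2] at h1
        exact ht1 ((hH hg _).1 h1)
      rw [mem_image]
      refine ⟨(i, z + (i : ZMod n) - x), ?_, ?_⟩
      · rw [mem_product]
        exact ⟨mem_range.2 hit, mem_els.2 hg⟩
      · show x - (i : ZMod n) + (z + (i : ZMod n) - x) = z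
        abel
    calc A.card ≤ _ := card_le_card hsub
      _ ≤ (range t ×ˢ els H).card := card_image_le
      _ = _ := by rw [card_product, card_range]

/-- Structural step: a noisy sum-free set gives an admissible offset for an interval that is at
least as long. -/
theorem core [NeZero n] {k l c : ℕ} (hl : 1 ≤ l) (hk : l < k) {A : Finset (ZMod n)}
    (hA0 : A.Nonempty)
    (hd0 : Disjoint (sm k A + sm (k - 1) (iv n 0 (c + 2))) (sm l A + sm (l - 1) (iv n 0 (c + 2)))) :
    ∃ a D : ℕ, A.card ≤ a ∧ Nat.gcd n (k - l) ∣ D ∧ l * a + (l - 1) * c ≤ D ∧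
      D + k * a + (k - 1) * c ≤ n := by
  set C := iv n 0 (c + 2) with hC
  have hCn : C.Nonempty := ⟨0, mem_iv.2 ⟨0, by omega, by simp⟩⟩
  set H := stab (sm k A + sm (k - 1) C) with hHdef
  set B := A + els H with hB
  have hBn : B.Nonempty := hA0.mono (subset_add_els H A)
  have hHB : H ≤ stab B := le_stab_add_els H A
  have hX : sm k B + sm (k - 1) C = sm k A + sm (k - 1) C := by
    rw [hB, sm_add_els H A (by omega), add_right_comm, add_els_of_le_stab le_rfl]
  have hY : sm l B + sm (l - 1) C = (sm l A + sm (l - 1) C) + els H := by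
    rw [hB, sm_add_els H A hl, add_right_comm]
  have hd : Disjoint (sm k B + sm (k - 1) C) (sm l B + sm (l - 1) C) := by
    rw [hX, hY]
    exact disjoint_add_els le_rfl hd0
  have hAB : A.card ≤ B.card := card_le_card (subset_add_els H A)
  have hHX : stab (sm k B + sm (k - 1) C) = H := by rw [hX]
  set T := B + C with hT
  have hTn : T.Nonempty := hBn.add hCn
  set h := (els H).card with hh
  have hpos : 0 < h := card_els_pos H
  have hX' : sm k B + sm (k - 1) C = B + sm (k - 1) T := star_eq (by omega) B C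
  have hY' : sm l B + sm (l - 1) C = B + sm (l - 1) T := star_eq hl B C
  have hst : stab (B + sm (k - 1) T) ≤ H := by rw [← hX', hHX]
  have k1 := kn_iter hBn hTn H (k - 1) hst (k - 1) le_rfl
  have k2 := kn_iter hBn hTn H (k - 1) hst (l - 1) (by omega)
  rw [hX', hY'] at hd
  have hsum : (B + sm (k - 1) T).card + (B + sm (l - 1) T).card ≤ n := by
    rw [← card_union_of_disjoint hd]
    calc _ ≤ (univ : Finset (ZMod n)).card := card_le_card (subset_univ _)
      _ = n := by rw [card_univ, ZMod.card]
  have hYpos : 0 < (B + sm (l - 1) T).card := card_pos.2 (hBn.add (sm_nonempty hTn _))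
  have hTcard : T.card < n := by
    have h1 : B + sm (k - 1) T = (B + sm (k - 2) T) + T := by
      rw [show k - 1 = (k - 2) + 1 by omega, sm_succ]
      exact (add_assoc B (sm (k - 2) T) T).symm
    have h2 : T.card ≤ (B + sm (k - 1) T).card := by
      rw [h1]
      exact card_le_card_add_left (hBn.add (sm_nonempty hTn _))
    omega
  have hTne : T ≠ univ := by
    intro hcon
    rw [hcon, card_univ, ZMod.card] at hTcard
    omega
  have hBne : B ≠ univ := by
    intro hcon
    apply hTne
    have : B ⊆ T := subset_add_iv B (c + 1)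
    rw [hcon] at this
    exact univ_subset_iff.1 this
  have hgi : (B + iv n 0 2).card + c * h ≤ T.card := grow_iter hHB hBn c hTne
  have hg1 : B.card + h ≤ (B + iv n 0 2).card := grow hHB hBn hBne
  have hfin : h * H.index = n := card_els_mul_index H
  by_cases h2 : B.card + 2 * h ≤ (B + iv n 0 2).card
  · -- at least two runs: there is a lot of slack
    have hTb : B.card + (c + 2) * h ≤ T.card := by nlinarith
    set a := B.card with ha
    -- n ≥ 2 a + (k + l - 2) (a + (c + 1) h)
    have hmain : 2 * a + (k - 1 + (l - 1)) * (a + (c + 1) * h) ≤ n := by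
      rw [← hh] at k1 k2
      have e1 : (k - 1) * (a + (c + 2) * h) ≤ (k - 1) * T.card := Nat.mul_le_mul_left _ hTb
      have e2 : (l - 1) * (a + (c + 2) * h) ≤ (l - 1) * T.card := Nat.mul_le_mul_left _ hTb
      have e3 : (k - 1) * (a + (c + 2) * h) = (k - 1) * (a + (c + 1) * h) + (k - 1) * h := by ring
      have e4 : (l - 1) * (a + (c + 2) * h) = (l - 1) * (a + (c + 1) * h) + (l - 1) * h := by ring
      rw [Nat.add_mul]
      omega
    set δ := Nat.gcd n (k - l) with hδ
    have hδn : δ ∣ n := Nat.gcd_dvd_left _ _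
    have hn : 0 < n := Nat.pos_of_ne_zero (NeZero.ne n)
    have hδpos : 0 < δ := Nat.gcd_pos_of_pos_left _ hn
    have hδle : δ ≤ k - l := Nat.le_of_dvd (by omega) (Nat.gcd_dvd_right _ _)
    -- slack
    have hslack : (k + l) * a + (k - 1 + (l - 1)) * c + (k - 1 + (l - 1)) ≤ n := by
      obtain ⟨p, hp⟩ : ∃ p, k = p + 1 := ⟨k - 1, by omega⟩
      obtain ⟨q, hq⟩ : ∃ q, l = q + 1 := ⟨l - 1, by omega⟩
      subst hp hq
      simp only [Nat.add_sub_cancel] at hmain ⊢
      have e1 : (p + q) * (c + 1) ≤ (p + q) * ((c + 1) * h) :=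
        Nat.mul_le_mul_left _ (Nat.le_mul_of_pos_right _ hpos)
      nlinarith
    obtain ⟨u, hu⟩ : ∃ u, n = k * a + (k - 1) * c + u := by
      refine ⟨n - (k * a + (k - 1) * c), ?_⟩
      have : k * a + (k - 1) * c ≤ n := by
        have e1 : (k + l) * a = k * a + l * a := by ring
        have e2 : (k - 1 + (l - 1)) * c = (k - 1) * c + (l - 1) * c := by ring
        omega
      omega
    refine ⟨a, u - u % δ, hAB, ?_, ?_, ?_⟩
    · exact Nat.dvd_sub_mod u
    · have e0 := Nat.mod_lt u hδpos
      have e1 : (k + l) * a = k * a + l * a := by ring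
      have e2 : (k - 1 + (l - 1)) * c = (k - 1) * c + (l - 1) * c := by ring
      omega
    · have := Nat.sub_le u (u % δ)
      omega
  · -- one run modulo H
    have hd1 := card_dvd_of_le_stab hHB
    have hd2 := card_dvd_of_le_stab (hHB.trans (stab_le_stab_add B (iv n 0 2)))
    have hceq : (B + iv n 0 2).card = B.card + h := by
      have h3 : h ∣ (B + iv n 0 2).card - B.card := Nat.dvd_sub hd2 hd1
      obtain ⟨e, he⟩ := h3
      have he1 : e = 1 := by
        have e1 : 1 ≤ e := by
          by_contra hcon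
          have : e = 0 := by omega
          subst this
          omega
        have e2 : e < 2 := by
          by_contra hcon
          have : h * 2 ≤ h * e := Nat.mul_le_mul_left _ (by omega)
          omega
        omega
      subst he1
      omega
    obtain ⟨t, y, ht, hiv, hcard⟩ := one_run hHB hBn hBne hceq
    obtain ⟨t', rfl⟩ : ∃ t', t = t' + 1 := ⟨t - 1, by omega⟩
    -- elements of the two sets
    have hXmem : ∀ i, i ≤ k * t' + (k - 1) * (c + 1) →
        (k : ZMod n) * y + (i : ZMod n) ∈ B + sm (k - 1) T := by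
      intro i hi
      rw [← hX']
      have e1 : sm k (iv n y (t' + 1)) + sm (k - 1) (iv n 0 (c + 1 + 1)) ⊆
          sm k B + sm (k - 1) C := add_subset_add (sm_mono hiv k) (Subset.refl _)
      apply e1
      rw [sm_iv, sm_iv, iv_add, mem_iv]
      exact ⟨i, by omega, by ring⟩
    have hYmem : ∀ i, i ≤ l * t' + (l - 1) * (c + 1) →
        (l : ZMod n) * y + (i : ZMod n) ∈ B + sm (l - 1) T := by
      intro i hi
      rw [← hY']
      have e1 : sm l (iv n y (t' + 1)) + sm (l - 1) (iv n 0 (c + 1 + 1)) ⊆
          sm l B + sm (l - 1) C := add_subset_add (sm_mono hiv l) (Subset.refl _)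
      apply e1
      rw [sm_iv, sm_iv, iv_add, mem_iv]
      exact ⟨i, by omega, by ring⟩
    have hHX' : stab (B + sm (k - 1) T) = H := by rw [← hX', hHX]
    have hsep : ∀ i j : ℕ, i ≤ k * t' + (k - 1) * (c + 1) → j ≤ l * t' + (l - 1) * (c + 1) →
        ((k : ZMod n) * y + (i : ZMod n)) - ((l : ZMod n) * y + (j : ZMod n)) ∉ H := by
      intro i j hi hj hcon
      have e1 := hXmem i hi
      have e2 := hYmem j hj
      have e3 : (l : ZMod n) * y + (j : ZMod n) ∈ B + sm (k - 1) T := by
        rw [← hHX'] at hcon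
        apply (hcon _).1
        rw [sub_add_cancel]
        exact e1
      exact (Finset.disjoint_left.1 hd) e3 e2
    set m := H.index with hm
    have hn : 0 < n := Nat.pos_of_ne_zero (NeZero.ne n)
    have hmpos : 0 < m := by
      rcases Nat.eq_zero_or_pos m with h0 | h0
      · rw [h0] at hfin; omega
      · exact h0
    set z0 := (k - l) * y.val with hz0
    have hzc : (z0 : ZMod n) = (k : ZMod n) * y - (l : ZMod n) * y := by
      rw [hz0, Nat.cast_mul, ZMod.natCast_zmod_val, Nat.cast_sub hk.le]
      ring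
    set D := z0 % m with hD
    have hDlt : D < m := Nat.mod_lt _ hmpos
    have hdm : m * (z0 / m) + D = z0 := Nat.div_add_mod z0 m
    have hlow : l * t' + (l - 1) * (c + 1) + 1 ≤ D := by
      by_contra hcon
      push Not at hcon
      apply hsep 0 D (by omega) (by omega)
      have e : (k : ZMod n) * y + ((0 : ℕ) : ZMod n) - ((l : ZMod n) * y + (D : ZMod n)) =
          ((m * (z0 / m) : ℕ) : ZMod n) := by
        have e1 : ((m * (z0 / m) : ℕ) : ZMod n) + (D : ZMod n) = (z0 : ZMod n) := by
          rw [← Nat.cast_add, hdm]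
        rw [hzc] at e1
        rw [eq_sub_of_add_eq e1]
        push_cast
        ring
      rw [e]
      exact index_mul_mem H _
    have hhigh : D + (k * t' + (k - 1) * (c + 1) + 1) ≤ m := by
      by_contra hcon
      push Not at hcon
      apply hsep (m - D) 0 (by omega) (by omega)
      have e : (k : ZMod n) * y + ((m - D : ℕ) : ZMod n) -
          ((l : ZMod n) * y + ((0 : ℕ) : ZMod n)) = ((m * (z0 / m + 1) : ℕ) : ZMod n) := by
        have e1 : ((m * (z0 / m) : ℕ) : ZMod n) + (D : ZMod n) = (z0 : ZMod n) := by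
          rw [← Nat.cast_add, hdm]
        rw [hzc] at e1
        rw [Nat.cast_sub hDlt.le, Nat.mul_add, Nat.cast_add, eq_sub_of_add_eq e1]
        push_cast
        ring
      rw [e]
      exact index_mul_mem H _
    have hgD : Nat.gcd m (k - l) ∣ D := by
      rw [hD]
      rw [Nat.dvd_mod_iff (Nat.gcd_dvd_left _ _)]
      exact Dvd.dvd.mul_right (Nat.gcd_dvd_right _ _) _
    refine ⟨(t' + 1) * h, h * D, hAB.trans hcard, ?_, ?_, ?_⟩
    · have e1 : Nat.gcd n (k - l) ∣ h * Nat.gcd m (k - l) := by
        rw [← Nat.gcd_mul_left, hfin]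
        exact Nat.dvd_gcd (Nat.gcd_dvd_left _ _) (Dvd.dvd.mul_left (Nat.gcd_dvd_right _ _) _)
      exact e1.trans (Nat.mul_dvd_mul_left _ hgD)
    · obtain ⟨q, hq⟩ : ∃ q, l = q + 1 := ⟨l - 1, by omega⟩
      subst hq
      simp only [Nat.add_sub_cancel] at hlow ⊢
      have e1 : h * ((q + 1) * t' + q * (c + 1) + 1) ≤ h * D := Nat.mul_le_mul_left _ hlow
      have e2 : q * c ≤ h * (q * c) := Nat.le_mul_of_pos_left _ hpos
      nlinarith
    · obtain ⟨p, hp⟩ : ∃ p, k = p + 1 := ⟨k - 1, by omega⟩
      subst hp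
      simp only [Nat.add_sub_cancel] at hhigh ⊢
      have e1 : h * (D + ((p + 1) * t' + p * (c + 1) + 1)) ≤ h * m := Nat.mul_le_mul_left _ hhigh
      rw [hfin] at e1
      have e2 : p * c ≤ h * (p * c) := Nat.le_mul_of_pos_left _ hpos
      nlinarith

end Pool.Agent.Q248.NSF
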